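import Pool.Agent.AP87.LLL

/-!
# The assignment lemma

Rows, columns, symbols; every cell `(r, v)` carries at most one section. If for every row the sum
over the columns of one over the number of rows with the same symbol in that column is at most
`1/16`, then in every column the rows with the same symbol may be permuted so that no row has two
cells in one section.
-/

open Finset

set_option autoImplicit false
set_option linter.unusedSectionVars false

namespace Pool.Agent.AP87

variable {R V Y P : Type*} [Fintype R] [DecidableEq R] [Fintype V] [DecidableEq V]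
  [DecidableEq Y] [DecidableEq P]

/-- the rows with the symbol of `r` in column `v` -/
def cls (a : R → V → Y) (r : R) (v : V) : Finset R := univ.filter fun x => a x v = a r v

theorem mem_cls {a : R → V → Y} {r x : R} {v : V} : x ∈ cls a r v ↔ a x v = a r v := by
  simp [cls]

theorem cls_congr {a : R → V → Y} {r x : R} {v : V} (h : a x v = a r v) :
    cls a x v = cls a r v := by
  ext z
  rw [mem_cls, mem_cls, h]

/-- the size of a class, as a rational number -/
def lam (a : R → V → Y) (r : R) (v : V) : ℚ := ((cls a r v).card : ℚ)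

theorem lam_pos (a : R → V → Y) (r : R) (v : V) : 0 < lam a r v := by
  have : 0 < (cls a r v).card := card_pos.2 ⟨r, mem_cls.2 rfl⟩
  unfold lam
  exact_mod_cast this

theorem lam_congr {a : R → V → Y} {r x : R} {v : V} (h : a x v = a r v) :
    lam a x v = lam a r v := by
  unfold lam
  rw [cls_congr h]

/-- the class preserving families of permutations -/
def Om (a : R → V → Y) : Type _ := {π : V → Equiv.Perm R // ∀ v r, a (π v r) v = a r v}

noncomputable instance (a : R → V → Y) : Fintype (Om a) := by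
  classical
  unfold Om
  infer_instance

noncomputable instance (a : R → V → Y) : DecidableEq (Om a) := Classical.decEq _

instance (a : R → V → Y) : Nonempty (Om a) := ⟨⟨fun _ => 1, fun _ _ => rfl⟩⟩

/-- the possible bad events: row `r` gets in the columns `v`, `w` the slots `s`, `t` of one
section -/
structure Val (a : R → V → Y) (sg : R → V → Option P) (o : V → ℕ) (e : R × V × V × R × R) :
    Prop where
  lt : o e.2.1 < o e.2.2.1
  ha : a e.2.2.2.1 e.2.1 = a e.1 e.2.1
  hb : a e.2.2.2.2 e.2.2.1 = a e.1 e.2.2.1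
  hs : ∃ p, sg e.2.2.2.1 e.2.1 = some p ∧ sg e.2.2.2.2 e.2.2.1 = some p

/-- the type of events -/
def Ev (a : R → V → Y) (sg : R → V → Option P) (o : V → ℕ) : Type _ :=
  {e : R × V × V × R × R // Val a sg o e}

variable {a : R → V → Y} {sg : R → V → Option P} {o : V → ℕ}

noncomputable instance : Fintype (Ev a sg o) := by
  classical
  unfold Ev
  infer_instance

noncomputable instance : DecidableEq (Ev a sg o) := Classical.decEq _

/-- row -/
def Ev.r (e : Ev a sg o) : R := e.1.1
/-- first column -/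
def Ev.v (e : Ev a sg o) : V := e.1.2.1
/-- second column -/
def Ev.w (e : Ev a sg o) : V := e.1.2.2.1
/-- first slot -/
def Ev.s (e : Ev a sg o) : R := e.1.2.2.2.1
/-- second slot -/
def Ev.t (e : Ev a sg o) : R := e.1.2.2.2.2

theorem Ev.lt (e : Ev a sg o) : o e.v < o e.w := e.2.lt
theorem Ev.hs' (e : Ev a sg o) : a e.s e.v = a e.r e.v := e.2.ha
theorem Ev.ht' (e : Ev a sg o) : a e.t e.w = a e.r e.w := e.2.hb
theorem Ev.sec (e : Ev a sg o) : ∃ p, sg e.s e.v = some p ∧ sg e.t e.w = some p := e.2.hs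

theorem Ev.ext' {e f : Ev a sg o} (h1 : e.r = f.r) (h2 : e.v = f.v) (h3 : e.w = f.w)
    (h4 : e.s = f.s) (h5 : e.t = f.t) : e = f := by
  apply Subtype.ext
  exact Prod.ext h1 (Prod.ext h2 (Prod.ext h3 (Prod.ext h4 h5)))

theorem Ev.ne (e : Ev a sg o) : e.v ≠ e.w := by
  intro h
  have := e.lt
  rw [h] at this
  exact lt_irrefl _ this

/-- the event as a set -/
noncomputable def bad (e : Ev a sg o) : Finset (Om a) :=
  univ.filter fun π => π.1 e.v e.r = e.s ∧ π.1 e.w e.r = e.t

theorem mem_bad {e : Ev a sg o} {π : Om a} : π ∈ bad e ↔ π.1 e.v e.r = e.s ∧ π.1 e.w e.r = e.t := by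
  simp [bad]

/-- the probability -/
def pr (e : Ev a sg o) : ℚ := 1 / (lam a e.r e.v * lam a e.r e.w)

theorem pr_nonneg (e : Ev a sg o) : 0 ≤ pr e := by
  unfold pr
  have h1 := lam_pos a e.r e.v
  have h2 := lam_pos a e.r e.w
  positivity

/-- `f` uses the pair (row `x`, column `c`) -/
def U1 (x : R) (c : V) (f : Ev a sg o) : Prop := f.r = x ∧ (f.v = c ∨ f.w = c)

/-- `f` uses the slot `x` in column `c` -/
def U2 (x : R) (c : V) (f : Ev a sg o) : Prop := (f.v = c ∧ f.s = x) ∨ (f.w = c ∧ f.t = x)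

open Classical in
/-- the neighbours -/
noncomputable def nb (e : Ev a sg o) : Finset (Ev a sg o) :=
  univ.filter fun f => (U1 e.r e.v f ∨ U1 e.r e.w f) ∨ (U2 e.s e.v f ∨ U2 e.t e.w f)

theorem mem_nb {e f : Ev a sg o} :
    f ∈ nb e ↔ (U1 e.r e.v f ∨ U1 e.r e.w f) ∨ (U2 e.s e.v f ∨ U2 e.t e.w f) := by
  simp [nb]

/-- the switched family -/
def sw (e : Ev a sg o) (π : Om a) (x y : R) (hx : x ∈ cls a e.r e.v) (hy : y ∈ cls a e.r e.w) :
    Om a :=
  ⟨fun c => if c = e.v then Equiv.swap e.s x * π.1 c else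
      if c = e.w then Equiv.swap e.t y * π.1 c else π.1 c, by
    intro c r
    dsimp only
    have hsw : ∀ (p q z : R), a p c = a q c → a (Equiv.swap p q z) c = a z c := by
      intro p q z h
      rcases eq_or_ne z p with rfl | h1
      · rw [Equiv.swap_apply_left, h]
      · rcases eq_or_ne z q with rfl | h2
        · rw [Equiv.swap_apply_right, h]
        · rw [Equiv.swap_apply_of_ne_of_ne h1 h2]
    split_ifs with h1 h2
    · rw [Equiv.Perm.mul_apply, hsw, π.2 c r]
      rw [h1, e.hs', mem_cls.1 hx]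
    · rw [Equiv.Perm.mul_apply, hsw, π.2 c r]
      rw [h2, e.ht', mem_cls.1 hy]
    · exact π.2 c r⟩

theorem sw_v (e : Ev a sg o) (π : Om a) (x y : R) (hx hy) :
    (sw e π x y hx hy).1 e.v = Equiv.swap e.s x * π.1 e.v := by
  simp [sw]

theorem sw_w (e : Ev a sg o) (π : Om a) (x y : R) (hx hy) :
    (sw e π x y hx hy).1 e.w = Equiv.swap e.t y * π.1 e.w := by
  simp [sw, e.ne.symm]

theorem sw_o (e : Ev a sg o) (π : Om a) (x y : R) (hx hy) {c : V} (h1 : c ≠ e.v) (h2 : c ≠ e.w) :
    (sw e π x y hx hy).1 c = π.1 c := by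
  simp [sw, h1, h2]

theorem col {π : Equiv.Perm R} {r s x q u : R} (h1 : π r = s) (h2 : (Equiv.swap s x * π) q = u)
    (h3 : u ≠ s) (h4 : q ≠ r) : π q = u := by
  rw [Equiv.Perm.mul_apply] at h2
  have h5 : π q = Equiv.swap s x u := by
    rw [← h2, Equiv.swap_apply_self]
  rcases eq_or_ne u x with rfl | h6
  · rw [Equiv.swap_apply_right] at h5
    exact absurd (π.injective (h5.trans h1.symm)) h4
  · rw [Equiv.swap_apply_of_ne_of_ne h3 h6] at h5
    exact h5

/-- one column of an event `f` which is true after the switch -/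
theorem sw_back (e : Ev a sg o) (π : Om a) (x y : R) (hx hy) (hπ : π ∈ bad e) {c : V} {q u : R}
    (h1 : (sw e π x y hx hy).1 c q = u)
    (hv : c = e.v → q ≠ e.r ∧ u ≠ e.s) (hw : c = e.w → q ≠ e.r ∧ u ≠ e.t) : π.1 c q = u := by
  rw [mem_bad] at hπ
  by_cases h2 : c = e.v
  · subst h2
    rw [sw_v] at h1
    exact col hπ.1 h1 (hv rfl).2 (hv rfl).1
  · by_cases h3 : c = e.w
    · subst h3
      rw [sw_w] at h1
      exact col hπ.2 h1 (hw rfl).2 (hw rfl).1
    · rw [sw_o e π x y hx hy h2 h3] at h1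
      exact h1

theorem sw_mem_av (e : Ev a sg o) (π : Om a) (x y : R) (hx hy) (hπ : π ∈ bad e)
    {S : Finset (Ev a sg o)} (hd : Disjoint S (nb e)) (hS : π ∈ av bad S) :
    sw e π x y hx hy ∈ av bad S := by
  rw [mem_av] at hS ⊢
  intro f hf hcon
  have hnb : ¬ ((U1 e.r e.v f ∨ U1 e.r e.w f) ∨ (U2 e.s e.v f ∨ U2 e.t e.w f)) := by
    intro h
    exact disjoint_left.1 hd hf (mem_nb.2 h)
  push Not at hnb
  obtain ⟨⟨n1, n2⟩, n3, n4⟩ := hnb
  unfold U1 at n1 n2
  unfold U2 at n3 n4
  push Not at n1 n2 n3 n4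
  rw [mem_bad] at hcon
  apply hS f hf
  rw [mem_bad]
  constructor
  · refine sw_back e π x y hx hy hπ hcon.1 ?_ ?_
    · intro h
      exact ⟨fun h5 => (n1 h5).1 h, n3.1 h⟩
    · intro h
      exact ⟨fun h5 => (n2 h5).1 h, n4.1 h⟩
  · refine sw_back e π x y hx hy hπ hcon.2 ?_ ?_
    · intro h
      exact ⟨fun h5 => (n1 h5).2 h, n3.2 h⟩
    · intro h
      exact ⟨fun h5 => (n2 h5).2 h, n4.2 h⟩

theorem sw_inj (e : Ev a sg o) (π π' : Om a) (x y x' y' : R) (hx hy hx' hy') (hπ : π ∈ bad e)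
    (hπ' : π' ∈ bad e) (h : sw e π x y hx hy = sw e π' x' y' hx' hy') :
    π = π' ∧ x = x' ∧ y = y' := by
  have hf : (sw e π x y hx hy).1 = (sw e π' x' y' hx' hy').1 := congrArg Subtype.val h
  have hv := congrFun hf e.v
  have hw := congrFun hf e.w
  rw [sw_v, sw_v] at hv
  rw [sw_w, sw_w] at hw
  rw [mem_bad] at hπ hπ'
  have h1 : x = x' := by
    have := congrArg (fun τ : Equiv.Perm R => τ e.r) hv
    simpa [Equiv.Perm.mul_apply, hπ.1, hπ'.1] using this
  have h2 : y = y' := by
    have := congrArg (fun τ : Equiv.Perm R => τ e.r) hw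
    simpa [Equiv.Perm.mul_apply, hπ.2, hπ'.2] using this
  subst h1
  subst h2
  refine ⟨?_, rfl, rfl⟩
  apply Subtype.ext
  funext c
  by_cases h3 : c = e.v
  · rw [h3]
    exact mul_left_cancel hv
  · by_cases h4 : c = e.w
    · rw [h4]
      exact mul_left_cancel hw
    · have := congrFun hf c
      rwa [sw_o e π x y hx hy h3 h4, sw_o e π' x y hx' hy' h3 h4] at this

theorem lop (e : Ev a sg o) (S : Finset (Ev a sg o)) (hd : Disjoint S (nb e)) :
    ((bad e ∩ av bad S).card : ℚ) ≤ pr e * (av bad S).card := by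
  have h1 : ((bad e ∩ av bad S) ×ˢ (cls a e.r e.v ×ˢ cls a e.r e.w)).card ≤ (av bad S).card := by
    refine card_le_card_of_injOn
      (fun z => if h : z.2.1 ∈ cls a e.r e.v ∧ z.2.2 ∈ cls a e.r e.w then
        sw e z.1 z.2.1 z.2.2 h.1 h.2 else z.1) ?_ ?_
    · rintro ⟨π, x, y⟩ hz
      simp only [coe_product, Set.mem_prod, mem_coe, mem_inter] at hz
      have hh : x ∈ cls a e.r e.v ∧ y ∈ cls a e.r e.w := hz.2
      simp only [hh, and_self, dite_true]
      exact sw_mem_av e π x y hh.1 hh.2 hz.1.1 hd hz.1.2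
    · rintro ⟨π, x, y⟩ hz ⟨π', x', y'⟩ hz' heq
      simp only [coe_product, Set.mem_prod, mem_coe, mem_inter] at hz hz'
      have hh : x ∈ cls a e.r e.v ∧ y ∈ cls a e.r e.w := hz.2
      have hh' : x' ∈ cls a e.r e.v ∧ y' ∈ cls a e.r e.w := hz'.2
      simp only [hh, hh', and_self, dite_true] at heq
      obtain ⟨h1, h2, h3⟩ := sw_inj e π π' x y x' y' hh.1 hh.2 hh'.1 hh'.2 hz.1.1 hz'.1.1 heq
      rw [h1, h2, h3]
  rw [card_product, card_product] at h1
  have h2 : ((bad e ∩ av bad S).card : ℚ) * (lam a e.r e.v * lam a e.r e.w) ≤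
      (av bad S).card := by
    unfold lam
    exact_mod_cast h1
  have h3 : 0 < lam a e.r e.v * lam a e.r e.w := mul_pos (lam_pos _ _ _) (lam_pos _ _ _)
  unfold pr
  rw [one_div, inv_mul_eq_div, le_div_iff₀ h3]
  exact h2

end Pool.Agent.AP87
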