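import Mathlib

/-!
# The lopsided local lemma in counting form
-/

open Finset

set_option autoImplicit false
set_option linter.unusedSectionVars false

namespace Pool.Agent.AP87

variable {Ω E : Type*} [Fintype Ω] [DecidableEq Ω] [DecidableEq E]

/-- The outcomes which avoid all events of `S`. -/
def av (bad : E → Finset Ω) (S : Finset E) : Finset Ω :=
  univ.filter fun ω => ∀ e ∈ S, ω ∉ bad e

theorem mem_av {bad : E → Finset Ω} {S : Finset E} {ω : Ω} :
    ω ∈ av bad S ↔ ∀ e ∈ S, ω ∉ bad e := by
  simp [av]

theorem av_anti {bad : E → Finset Ω} {S T : Finset E} (h : S ⊆ T) : av bad T ⊆ av bad S := by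
  intro ω hω
  rw [mem_av] at hω ⊢
  exact fun e he => hω e (h he)

theorem key (bad : E → Finset Ω) (p : E → ℚ) (nb : E → Finset E) (h0 : ∀ e, 0 ≤ p e)
    (hlop : ∀ e (S : Finset E), Disjoint S (nb e) →
      ((bad e ∩ av bad S).card : ℚ) ≤ p e * (av bad S).card)
    (hsum : ∀ e, ∑ f ∈ nb e, p f ≤ 1 / 4) :
    ∀ (n : ℕ) (S : Finset E), S.card = n → ∀ e, e ∉ S →
      ((bad e ∩ av bad S).card : ℚ) ≤ 2 * p e * (av bad S).card := by
  intro n
  induction n using Nat.strong_induction_on with
  | _ n ih =>
    intro S hS e _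
    by_cases hd : Disjoint S (nb e)
    · have h1 := hlop e S hd
      have h2 : (0 : ℚ) ≤ p e * (av bad S).card := mul_nonneg (h0 e) (Nat.cast_nonneg _)
      linarith
    · set S1 := S ∩ nb e with hS1
      set S2 := S \ nb e with hS2
      have hlt : S2.card < n := by
        rw [← hS]
        apply card_lt_card
        rw [hS2]
        refine ⟨sdiff_subset, fun h => hd ?_⟩
        rw [disjoint_left]
        intro x hx
        exact (mem_sdiff.1 (h hx)).2
      have hsub : av bad S2 ⊆ av bad S ∪ S1.biUnion fun f => bad f ∩ av bad S2 := by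
        intro ω hω
        rw [mem_union, mem_biUnion]
        by_cases h3 : ∃ f ∈ S1, ω ∈ bad f
        · obtain ⟨f, hf, hf2⟩ := h3
          exact Or.inr ⟨f, hf, mem_inter.2 ⟨hf2, hω⟩⟩
        · push Not at h3
          left
          rw [mem_av] at hω ⊢
          intro f hf
          by_cases h4 : f ∈ nb e
          · exact h3 f (mem_inter.2 ⟨hf, h4⟩)
          · exact hω f (mem_sdiff.2 ⟨hf, h4⟩)
      have hcard : ((av bad S2).card : ℚ) ≤ (av bad S).card +
          ∑ f ∈ S1, ((bad f ∩ av bad S2).card : ℚ) := by
        have h5 := (card_le_card hsub).trans ((card_union_le _ _).trans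
          (Nat.add_le_add_left card_biUnion_le _))
        exact_mod_cast h5
      have hsum1 : ∑ f ∈ S1, ((bad f ∩ av bad S2).card : ℚ) ≤
          ∑ f ∈ S1, 2 * p f * (av bad S2).card := by
        refine sum_le_sum fun f hf => ih S2.card hlt S2 rfl f ?_
        intro hf2
        exact (mem_sdiff.1 hf2).2 (mem_inter.1 hf).2
      have hsum2 : ∑ f ∈ S1, 2 * p f * ((av bad S2).card : ℚ) =
          2 * (∑ f ∈ S1, p f) * (av bad S2).card := by
        rw [← sum_mul, mul_sum]
      have hsum3 : ∑ f ∈ S1, p f ≤ 1 / 4 :=
        (sum_le_sum_of_subset_of_nonneg inter_subset_right fun f _ _ => h0 f).trans (hsum e)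
      have h6 : ((av bad S2).card : ℚ) ≤ 2 * (av bad S).card := by
        have h7 : (∑ f ∈ S1, p f) * ((av bad S2).card : ℚ) ≤ 1 / 4 * (av bad S2).card :=
          mul_le_mul_of_nonneg_right hsum3 (Nat.cast_nonneg _)
        rw [hsum2] at hsum1
        linarith
      have h8 : ((bad e ∩ av bad S).card : ℚ) ≤ (bad e ∩ av bad S2).card := by
        exact_mod_cast card_le_card (inter_subset_inter_left (av_anti sdiff_subset))
      have h9 : ((bad e ∩ av bad S2).card : ℚ) ≤ p e * (av bad S2).card := by
        apply hlop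
        rw [disjoint_left]
        intro x hx
        exact (mem_sdiff.1 hx).2
      have h10 : p e * ((av bad S2).card : ℚ) ≤ p e * (2 * (av bad S).card) :=
        mul_le_mul_of_nonneg_left h6 (h0 e)
      linarith

theorem lll [Fintype E] [Nonempty Ω] (bad : E → Finset Ω) (p : E → ℚ) (nb : E → Finset E)
    (h0 : ∀ e, 0 ≤ p e)
    (hlop : ∀ e (S : Finset E), Disjoint S (nb e) →
      ((bad e ∩ av bad S).card : ℚ) ≤ p e * (av bad S).card)
    (hsum : ∀ e, ∑ f ∈ nb e, p f ≤ 1 / 4) (hself : ∀ e, e ∈ nb e) :
    ∃ ω, ∀ e, ω ∉ bad e := by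
  have hpos : ∀ S : Finset E, 0 < (av bad S).card := by
    intro S
    induction S using Finset.induction_on with
    | empty =>
      have : av bad (∅ : Finset E) = univ := by
        ext ω
        simp [mem_av]
      rw [this, card_univ]
      exact Fintype.card_pos
    | insert e S he ih =>
      have h1 := key bad p nb h0 hlop hsum S.card S rfl e he
      have h2 : p e ≤ 1 / 4 := (single_le_sum (fun f _ => h0 f) (hself e)).trans (hsum e)
      have h3 : av bad S ⊆ av bad (insert e S) ∪ (bad e ∩ av bad S) := by
        intro ω hω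
        rw [mem_union, mem_inter]
        by_cases h4 : ω ∈ bad e
        · exact Or.inr ⟨h4, hω⟩
        · left
          rw [mem_av] at hω ⊢
          intro f hf
          rcases mem_insert.1 hf with rfl | hf
          · exact h4
          · exact hω f hf
      have h5 : ((av bad S).card : ℚ) ≤ (av bad (insert e S)).card + (bad e ∩ av bad S).card := by
        exact_mod_cast (card_le_card h3).trans (card_union_le _ _)
      have h6 : (0 : ℚ) < (av bad S).card := by exact_mod_cast ih
      have h7 : 2 * p e * ((av bad S).card : ℚ) ≤ 1 / 2 * (av bad S).card := by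
        apply mul_le_mul_of_nonneg_right _ h6.le
        linarith
      have h8 : (0 : ℚ) < (av bad (insert e S)).card := by linarith
      exact_mod_cast h8
  obtain ⟨ω, hω⟩ := card_pos.1 (hpos univ)
  exact ⟨ω, fun e => mem_av.1 hω e (mem_univ e)⟩

end Pool.Agent.AP87
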