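import Pool.Agent.AP87.Assign

/-!
# The assignment lemma: the sums of the probabilities, and the result
-/

open Finset

set_option autoImplicit false
set_option linter.unusedSectionVars false

namespace Pool.Agent.AP87

variable {R V Y P : Type*} [Fintype R] [DecidableEq R] [Fintype V] [DecidableEq V]
  [DecidableEq Y] [DecidableEq P]

theorem sum_inj {ι κ : Type*} [DecidableEq κ] (A : Finset ι) (g : ι → κ) (hg : Set.InjOn g A)
    (T : Finset κ) (hT : ∀ f ∈ A, g f ∈ T) (p : ι → ℚ) (q : κ → ℚ) (hq : ∀ y ∈ T, 0 ≤ q y)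
    (hpq : ∀ f ∈ A, p f ≤ q (g f)) : ∑ f ∈ A, p f ≤ ∑ y ∈ T, q y := by
  calc ∑ f ∈ A, p f ≤ ∑ f ∈ A, q (g f) := sum_le_sum hpq
    _ = ∑ y ∈ A.image g, q y := (sum_image hg).symm
    _ ≤ ∑ y ∈ T, q y := by
      refine sum_le_sum_of_subset_of_nonneg ?_ fun y hy _ => hq y hy
      intro y hy
      obtain ⟨f, hf, rfl⟩ := mem_image.1 hy
      exact hT f hf

variable {a : R → V → Y} {sg : R → V → Option P} {o : V → ℕ}

open Classical in
/-- a set of events -/
noncomputable def fil (p : Ev a sg o → Prop) : Finset (Ev a sg o) := univ.filter p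

theorem mem_fil {p : Ev a sg o → Prop} {f : Ev a sg o} : f ∈ fil p ↔ p f := by
  simp [fil]

/-- the later columns -/
def aft (o : V → ℕ) (c : V) : Finset V := univ.filter fun w => o c < o w
/-- the earlier columns -/
def bef (o : V → ℕ) (c : V) : Finset V := univ.filter fun w => o w < o c

theorem aft_bef (a : R → V → Y) (o : V → ℕ) (c : V) (x : R) :
    ∑ w ∈ aft o c, 1 / lam a x w + ∑ w ∈ bef o c, 1 / lam a x w ≤ ∑ w, 1 / lam a x w := by
  have hd : Disjoint (aft o c) (bef o c) := by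
    rw [disjoint_left]
    intro w hw hw'
    unfold aft at hw
    unfold bef at hw'
    rw [mem_filter] at hw hw'
    omega
  rw [← sum_union hd]
  refine sum_le_sum_of_subset_of_nonneg (subset_univ _) fun w _ _ => ?_
  have := lam_pos a x w
  positivity

theorem sum_cls (x : R) (c : V) (z : ℚ) : ∑ _s ∈ cls a x c, z = lam a x c * z := by
  rw [sum_const, nsmul_eq_mul]
  rfl

theorem inv_lam (x : R) (c : V) (z : ℚ) : lam a x c * (1 / (lam a x c * z)) = 1 / z := by
  have h := lam_pos a x c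
  rw [one_div, one_div, mul_inv, ← mul_assoc, mul_inv_cancel₀ h.ne', one_mul]

theorem inv_lam' (x : R) (c : V) (z : ℚ) : lam a x c * (1 / (z * lam a x c)) = 1 / z := by
  rw [mul_comm z, inv_lam]

theorem N1A (hsg : ∀ v r r' p, sg r v = some p → sg r' v = some p → r = r') (x : R) (c : V) :
    ∑ f ∈ fil (a := a) (sg := sg) (o := o) (fun f => f.r = x ∧ f.v = c), pr f ≤
      ∑ w ∈ aft o c, 1 / lam a x w := by
  have h := sum_inj (fil (a := a) (sg := sg) (o := o) (fun f => f.r = x ∧ f.v = c))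
    (fun f => (f.w, f.s)) ?_ (aft o c ×ˢ cls a x c) ?_ pr
    (fun y => 1 / (lam a x c * lam a x y.1)) ?_ ?_
  · refine h.trans (le_of_eq ?_)
    rw [sum_product]
    refine sum_congr rfl fun w _ => ?_
    exact (sum_cls (a := a) x c (1 / (lam a x c * lam a x w))).trans (inv_lam x c _)
  · intro f hf f' hf' heq
    rw [mem_coe, mem_fil] at hf hf'
    simp only [Prod.mk.injEq] at heq
    have h1 : f.w = f'.w := heq.1
    have h2 : f.s = f'.s := heq.2
    have h3 : f.v = f'.v := hf.2.trans hf'.2.symm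
    obtain ⟨p, hp1, hp2⟩ := f.sec
    obtain ⟨p', hp1', hp2'⟩ := f'.sec
    have h4 : p = p' := by
      rw [h2, h3, hp1'] at hp1
      exact (Option.some_injective _ hp1).symm
    refine Ev.ext' (hf.1.trans hf'.1.symm) h3 h1 h2 ?_
    refine hsg f.w f.t f'.t p hp2 ?_
    rw [h1, h4]
    exact hp2'
  · intro f hf
    rw [mem_fil] at hf
    rw [mem_product]
    refine ⟨mem_filter.2 ⟨mem_univ _, ?_⟩, mem_cls.2 ?_⟩
    · rw [← hf.2]
      exact f.lt
    · have := f.hs'
      rwa [hf.1, hf.2] at this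
  · intro y _
    have h1 := lam_pos a x c
    have h2 := lam_pos a x y.1
    positivity
  · intro f hf
    rw [mem_fil] at hf
    unfold pr
    rw [hf.1, hf.2]

theorem N1B (hsg : ∀ v r r' p, sg r v = some p → sg r' v = some p → r = r') (x : R) (c : V) :
    ∑ f ∈ fil (a := a) (sg := sg) (o := o) (fun f => f.r = x ∧ f.w = c), pr f ≤
      ∑ w ∈ bef o c, 1 / lam a x w := by
  have h := sum_inj (fil (a := a) (sg := sg) (o := o) (fun f => f.r = x ∧ f.w = c))
    (fun f => (f.v, f.t)) ?_ (bef o c ×ˢ cls a x c) ?_ pr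
    (fun y => 1 / (lam a x y.1 * lam a x c)) ?_ ?_
  · refine h.trans (le_of_eq ?_)
    rw [sum_product]
    refine sum_congr rfl fun w _ => ?_
    exact (sum_cls (a := a) x c (1 / (lam a x w * lam a x c))).trans (inv_lam' x c _)
  · intro f hf f' hf' heq
    rw [mem_coe, mem_fil] at hf hf'
    simp only [Prod.mk.injEq] at heq
    have h1 : f.v = f'.v := heq.1
    have h2 : f.t = f'.t := heq.2
    have h3 : f.w = f'.w := hf.2.trans hf'.2.symm
    obtain ⟨p, hp1, hp2⟩ := f.sec
    obtain ⟨p', hp1', hp2'⟩ := f'.sec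
    have h4 : p = p' := by
      rw [h2, h3, hp2'] at hp2
      exact (Option.some_injective _ hp2).symm
    refine Ev.ext' (hf.1.trans hf'.1.symm) h1 h3 ?_ h2
    refine hsg f.v f.s f'.s p hp1 ?_
    rw [h1, h4]
    exact hp1'
  · intro f hf
    rw [mem_fil] at hf
    rw [mem_product]
    refine ⟨mem_filter.2 ⟨mem_univ _, ?_⟩, mem_cls.2 ?_⟩
    · rw [← hf.2]
      exact f.lt
    · have := f.ht'
      rwa [hf.1, hf.2] at this
  · intro y _
    have h1 := lam_pos a x c
    have h2 := lam_pos a x y.1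
    positivity
  · intro f hf
    rw [mem_fil] at hf
    unfold pr
    rw [hf.1, hf.2]

theorem N2A (hsg : ∀ v r r' p, sg r v = some p → sg r' v = some p → r = r') (x : R) (c : V) :
    ∑ f ∈ fil (a := a) (sg := sg) (o := o) (fun f => f.v = c ∧ f.s = x), pr f ≤
      ∑ r ∈ cls a x c, ∑ w ∈ aft o c, 1 / (lam a x c * lam a r w) := by
  rw [← sum_product']
  refine sum_inj _ (fun f => (f.r, f.w)) ?_ _ ?_ pr
    (fun y => 1 / (lam a x c * lam a y.1 y.2)) ?_ ?_
  · intro f hf f' hf' heq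
    rw [mem_coe, mem_fil] at hf hf'
    simp only [Prod.mk.injEq] at heq
    have h1 : f.r = f'.r := heq.1
    have h2 : f.w = f'.w := heq.2
    have h3 : f.v = f'.v := hf.1.trans hf'.1.symm
    have h5 : f.s = f'.s := hf.2.trans hf'.2.symm
    obtain ⟨p, hp1, hp2⟩ := f.sec
    obtain ⟨p', hp1', hp2'⟩ := f'.sec
    have h4 : p = p' := by
      rw [h5, h3, hp1'] at hp1
      exact (Option.some_injective _ hp1).symm
    refine Ev.ext' h1 h3 h2 h5 ?_
    refine hsg f.w f.t f'.t p hp2 ?_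
    rw [h2, h4]
    exact hp2'
  · intro f hf
    rw [mem_fil] at hf
    rw [mem_product]
    refine ⟨mem_cls.2 ?_, mem_filter.2 ⟨mem_univ _, ?_⟩⟩
    · have := f.hs'
      rw [hf.1, hf.2] at this
      exact this.symm
    · rw [← hf.1]
      exact f.lt
  · intro y _
    have h1 := lam_pos a x c
    have h2 := lam_pos a y.1 y.2
    positivity
  · intro f hf
    rw [mem_fil] at hf
    unfold pr
    have h1 : lam a f.r f.v = lam a x c := by
      have h2 := f.hs'
      rw [hf.2] at h2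
      rw [← lam_congr h2, hf.1]
    rw [h1]

theorem N2B (hsg : ∀ v r r' p, sg r v = some p → sg r' v = some p → r = r') (x : R) (c : V) :
    ∑ f ∈ fil (a := a) (sg := sg) (o := o) (fun f => f.w = c ∧ f.t = x), pr f ≤
      ∑ r ∈ cls a x c, ∑ w ∈ bef o c, 1 / (lam a x c * lam a r w) := by
  rw [← sum_product']
  refine sum_inj _ (fun f => (f.r, f.v)) ?_ _ ?_ pr
    (fun y => 1 / (lam a x c * lam a y.1 y.2)) ?_ ?_
  · intro f hf f' hf' heq
    rw [mem_coe, mem_fil] at hf hf'
    simp only [Prod.mk.injEq] at heq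
    have h1 : f.r = f'.r := heq.1
    have h2 : f.v = f'.v := heq.2
    have h3 : f.w = f'.w := hf.1.trans hf'.1.symm
    have h5 : f.t = f'.t := hf.2.trans hf'.2.symm
    obtain ⟨p, hp1, hp2⟩ := f.sec
    obtain ⟨p', hp1', hp2'⟩ := f'.sec
    have h4 : p = p' := by
      rw [h5, h3, hp2'] at hp2
      exact (Option.some_injective _ hp2).symm
    refine Ev.ext' h1 h2 h3 ?_ h5
    refine hsg f.v f.s f'.s p hp1 ?_
    rw [h2, h4]
    exact hp1'
  · intro f hf
    rw [mem_fil] at hf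
    rw [mem_product]
    refine ⟨mem_cls.2 ?_, mem_filter.2 ⟨mem_univ _, ?_⟩⟩
    · have := f.ht'
      rw [hf.1, hf.2] at this
      exact this.symm
    · rw [← hf.1]
      exact f.lt
  · intro y _
    have h1 := lam_pos a x c
    have h2 := lam_pos a y.1 y.2
    positivity
  · intro f hf
    rw [mem_fil] at hf
    unfold pr
    have h1 : lam a f.r f.w = lam a x c := by
      have h2 := f.ht'
      rw [hf.2] at h2
      rw [← lam_congr h2, hf.1]
    rw [h1, mul_comm]

theorem sum_or (p q : Ev a sg o → Prop) :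
    ∑ f ∈ fil (a := a) (sg := sg) (o := o) (fun f => p f ∨ q f), pr f ≤
      ∑ f ∈ fil (a := a) (sg := sg) (o := o) p, pr f +
      ∑ f ∈ fil (a := a) (sg := sg) (o := o) q, pr f := by
  have h0 : fil (a := a) (sg := sg) (o := o) (fun f => p f ∨ q f) = fil p ∪ fil q := by
    ext f
    rw [mem_union, mem_fil, mem_fil, mem_fil]
  rw [h0, ← sum_union_inter]
  have : 0 ≤ ∑ f ∈ fil (a := a) (sg := sg) (o := o) p ∩ fil q, pr f :=
    sum_nonneg fun f _ => pr_nonneg f
  linarith

theorem N1 (hsg : ∀ v r r' p, sg r v = some p → sg r' v = some p → r = r')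
    (h : ∀ r, ∑ v, 1 / lam a r v ≤ 1 / 16) (x : R) (c : V) :
    ∑ f ∈ fil (a := a) (sg := sg) (o := o) (U1 x c), pr f ≤ 1 / 16 := by
  have h1 : fil (a := a) (sg := sg) (o := o) (U1 x c) =
      fil (fun f => (f.r = x ∧ f.v = c) ∨ (f.r = x ∧ f.w = c)) := by
    ext f
    rw [mem_fil, mem_fil]
    unfold U1
    tauto
  rw [h1]
  have h2 := sum_or (a := a) (sg := sg) (o := o) (fun f => f.r = x ∧ f.v = c)
    (fun f => f.r = x ∧ f.w = c)
  have h3 := N1A (a := a) (o := o) hsg x c
  have h4 := N1B (a := a) (o := o) hsg x c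
  have h5 := aft_bef a o c x
  have h6 := h x
  linarith

theorem N2 (hsg : ∀ v r r' p, sg r v = some p → sg r' v = some p → r = r')
    (h : ∀ r, ∑ v, 1 / lam a r v ≤ 1 / 16) (x : R) (c : V) :
    ∑ f ∈ fil (a := a) (sg := sg) (o := o) (U2 x c), pr f ≤ 1 / 16 := by
  have h2 := sum_or (a := a) (sg := sg) (o := o) (fun f => f.v = c ∧ f.s = x)
    (fun f => f.w = c ∧ f.t = x)
  have h3 := N2A (a := a) (o := o) hsg x c
  have h4 := N2B (a := a) (o := o) hsg x c
  have h5 : ∑ r ∈ cls a x c, ∑ w ∈ aft o c, 1 / (lam a x c * lam a r w) +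
      ∑ r ∈ cls a x c, ∑ w ∈ bef o c, 1 / (lam a x c * lam a r w) ≤ 1 / 16 := by
    rw [← sum_add_distrib]
    have h6 : ∑ r ∈ cls a x c, (∑ w ∈ aft o c, 1 / (lam a x c * lam a r w) +
        ∑ w ∈ bef o c, 1 / (lam a x c * lam a r w)) ≤
        ∑ _r ∈ cls a x c, 1 / (lam a x c) * (1 / 16) := by
      refine sum_le_sum fun r _ => ?_
      have h7 : ∀ S : Finset V, ∑ w ∈ S, 1 / (lam a x c * lam a r w) =
          1 / lam a x c * ∑ w ∈ S, 1 / lam a r w := by
        intro S
        rw [mul_sum]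
        refine sum_congr rfl fun w _ => ?_
        rw [one_div_mul_one_div]
      rw [h7, h7, ← mul_add]
      apply mul_le_mul_of_nonneg_left
      · exact (aft_bef a o c r).trans (h r)
      · have := lam_pos a x c
        positivity
    rw [sum_cls] at h6
    have h8 : lam a x c * (1 / lam a x c * (1 / 16)) = 1 / 16 := by
      have := (lam_pos a x c).ne'
      field_simp
    linarith
  have h9 : fil (a := a) (sg := sg) (o := o) (U2 x c) =
      fil (fun f => (f.v = c ∧ f.s = x) ∨ (f.w = c ∧ f.t = x)) := by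
    ext f
    rw [mem_fil, mem_fil]
    rfl
  rw [h9]
  linarith

theorem sum_nb (hsg : ∀ v r r' p, sg r v = some p → sg r' v = some p → r = r')
    (h : ∀ r, ∑ v, 1 / lam a r v ≤ 1 / 16) (e : Ev a sg o) : ∑ f ∈ nb e, pr f ≤ 1 / 4 := by
  have h1 := sum_or (a := a) (sg := sg) (o := o) (fun f => U1 e.r e.v f ∨ U1 e.r e.w f)
    (fun f => U2 e.s e.v f ∨ U2 e.t e.w f)
  have h2 := sum_or (a := a) (sg := sg) (o := o) (fun f => U1 e.r e.v f) (fun f => U1 e.r e.w f)
  have h3 := sum_or (a := a) (sg := sg) (o := o) (fun f => U2 e.s e.v f) (fun f => U2 e.t e.w f)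
  have h4 := N1 (a := a) (o := o) hsg h e.r e.v
  have h5 := N1 (a := a) (o := o) hsg h e.r e.w
  have h6 := N2 (a := a) (o := o) hsg h e.s e.v
  have h7 := N2 (a := a) (o := o) hsg h e.t e.w
  have h8 : nb e = fil (fun f => (U1 e.r e.v f ∨ U1 e.r e.w f) ∨ (U2 e.s e.v f ∨ U2 e.t e.w f)) := by
    ext f
    rw [mem_fil, mem_nb]
  rw [h8]
  linarith

/-- **The assignment lemma.** -/
theorem assign (a : R → V → Y) (sg : R → V → Option P)
    (hsg : ∀ v r r' p, sg r v = some p → sg r' v = some p → r = r')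
    (h : ∀ r, ∑ v, (1 : ℚ) / ((univ.filter fun x => a x v = a r v).card : ℚ) ≤ 1 / 16) :
    ∃ π : V → Equiv.Perm R, (∀ v r, a (π v r) v = a r v) ∧
      ∀ r v w p, v ≠ w → sg (π v r) v = some p → sg (π w r) w ≠ some p := by
  classical
  set o : V → ℕ := fun v => (Fintype.equivFin V v : ℕ) with ho
  have hoi : ∀ v w, v ≠ w → o v ≠ o w := by
    intro v w hvw h1
    exact hvw ((Fintype.equivFin V).injective (Fin.ext h1))
  have h' : ∀ r, ∑ v, 1 / lam a r v ≤ 1 / 16 := h
  obtain ⟨π, hπ⟩ := lll (Ω := Om a) (E := Ev a sg o) bad pr nb pr_nonneg lop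
    (sum_nb hsg h') (fun e => mem_nb.2 (Or.inl (Or.inl ⟨rfl, Or.inl rfl⟩)))
  refine ⟨π.1, π.2, ?_⟩
  have main : ∀ r v w p, o v < o w → sg (π.1 v r) v = some p → sg (π.1 w r) w = some p →
      False := by
    intro r v w p hlt h1 h2
    have hval : Val a sg o (r, v, w, π.1 v r, π.1 w r) :=
      ⟨hlt, π.2 v r, π.2 w r, p, h1, h2⟩
    exact hπ ⟨_, hval⟩ (mem_bad.2 ⟨rfl, rfl⟩)
  intro r v w p hvw h1 h2
  rcases lt_or_gt_of_ne (hoi v w hvw) with h3 | h3
  · exact main r v w p h3 h1 h2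
  · exact main r w v p h3 h2 h1

end Pool.Agent.AP87
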